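import Pool.Agent.H31.SF

set_option autoImplicit false

open Pool.Agent.H31

theorem Pool.Agent.Results.MP_0ab388_gt.Neg.result :
    ∃ F : Set (Set (ℕ → ℕ)), (∀ U ∈ F, IsClosed U ∧ MeasurableSet U) ∧
      (∀ U ∈ F, ∀ x ∈ U, ∃ W ∈ F, W ≠ U ∧ x ∈ W ∧ W ⊆ U) ∧
      ∀ F0 F1 : Set (Set (ℕ → ℕ)), F0 ⊆ F → F1 ⊆ F → Disjoint F0 F1 →
        ¬ ((∀ U ∈ F, ∀ x ∈ U, ∃ W ∈ F0, W ≠ U ∧ x ∈ W ∧ W ⊆ U) ∧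
          ∀ U ∈ F, ∀ x ∈ U, ∃ W ∈ F1, W ≠ U ∧ x ∈ W ∧ W ⊆ U) := by
  refine ⟨{V | ∃ k β, V = SF.U k β}, ?_, ?_, fun F0 F1 h0 h1 hd h => SF.irres F0 F1 hd ?_ ?_⟩
  · rintro _ ⟨k, β, rfl⟩
    exact ⟨SF.U_closed k β, (SF.U_closed k β).measurableSet⟩
  · rintro _ ⟨k, β, rfl⟩ x hx
    obtain ⟨m, γ, h⟩ := SF.fills k β x hx
    exact ⟨_, ⟨m, γ, rfl⟩, h⟩
  · intro k β x hx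
    obtain ⟨W, w1, -, w2⟩ := h.1 _ ⟨k, β, rfl⟩ x hx
    obtain ⟨m, γ, rfl⟩ := h0 w1
    exact ⟨m, γ, w1, w2⟩
  · intro k β x hx
    obtain ⟨W, w1, -, w2⟩ := h.2 _ ⟨k, β, rfl⟩ x hx
    obtain ⟨m, γ, rfl⟩ := h1 w1
    exact ⟨m, γ, w1, w2⟩
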